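import Pool.Agent.SZG.StmtsW

set_option autoImplicit false

namespace Pool.Agent.SZG.H82

open scoped BigOperators
open Pool.Agent.THS Pool.Agent.SZG

/-- Row MPB. -/
theorem mpb (hQSA : QsaStmt) (hWXC : WxcStmt) (hTBG : TbgStmt) : MpbStmt := by
  intro K I _ _ v g E L0 c e s T x W X l Z b hqs hwx h2 hlb k a
  obtain ⟨w0, wXii, wXneg, wXz, wWz, wWW, wWn, wper⟩ := hWXC K I v L0 c e W X hwx
  have htb := hTBG K I v g E L0 c e s T x W X hqs hwx h2 ((l * k) • Z + b)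
  have hle : v (T ((l * k) • Z + b) a) ≤ nv v (T ((l * k) • Z + b)) := by
    unfold nv
    exact le_ciSup (f := fun j => v (T ((l * k) • Z + b) j)) (Set.finite_range _).bddAbove a
  have hX : 0 < X b Z := hwx.xpos b Z
  have he : v (e (l • b) Z) = X b Z ^ l := by
    rw [hwx.ee (l • b) hlb Z]
    have h1 := (wXz (l : ℤ) b Z).1
    rw [natCast_zsmul, zpow_natCast] at h1
    exact h1
  have hv : v (Mp l e T Z b k a) = (X b Z ^ (l * k))⁻¹ * v (T ((l * k) • Z + b) a) := by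
    unfold Mp
    rw [map_mul, map_pow, map_inv₀, he, pow_mul, inv_pow]
  have hWi : W ((l * k) • Z + b) = W ((l * k) • Z) * W b * X b Z ^ (l * k) := by
    rw [hwx.add]
    have h1 := (wXz ((l * k : ℕ) : ℤ) Z b).1
    rw [natCast_zsmul, zpow_natCast] at h1
    rw [h1, hwx.xsymm Z b]
  have hP : 0 < X b Z ^ (l * k) := pow_pos hX _
  have hcan : (X b Z ^ (l * k))⁻¹ * W ((l * k) • Z + b) = W ((l * k) • Z) * W b := by
    rw [hWi]
    field_simp
  have hinv : 0 ≤ (X b Z ^ (l * k))⁻¹ := (inv_pos.mpr hP).le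
  constructor
  · intro hv2
    have h1 := htb.1 hv2
    calc v (Mp l e T Z b k a) = (X b Z ^ (l * k))⁻¹ * v (T ((l * k) • Z + b) a) := hv
      _ ≤ (X b Z ^ (l * k))⁻¹ * (2 ^ g * (nv v (T 0) * W ((l * k) • Z + b))) :=
          mul_le_mul_of_nonneg_left (hle.trans h1) hinv
      _ = 2 ^ g * (nv v (T 0) * ((X b Z ^ (l * k))⁻¹ * W ((l * k) • Z + b))) := by ring
      _ = 2 ^ g * (W b * (nv v (T 0) * W ((l * k) • Z))) := by rw [hcan]; ring
  · intro hna
    have h1 := htb.2 hna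
    have h3 : 0 ≤ v 2 ^ g := pow_nonneg (v.nonneg 2) g
    calc v 2 ^ g * v (Mp l e T Z b k a)
        = (X b Z ^ (l * k))⁻¹ * (v 2 ^ g * v (T ((l * k) • Z + b) a)) := by rw [hv]; ring
      _ ≤ (X b Z ^ (l * k))⁻¹ * (v 2 ^ g * nv v (T ((l * k) • Z + b))) :=
          mul_le_mul_of_nonneg_left (mul_le_mul_of_nonneg_left hle h3) hinv
      _ ≤ (X b Z ^ (l * k))⁻¹ * (nv v (T 0) * W ((l * k) • Z + b)) :=
          mul_le_mul_of_nonneg_left h1 hinv
      _ = nv v (T 0) * ((X b Z ^ (l * k))⁻¹ * W ((l * k) • Z + b)) := by ring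
      _ = W b * (nv v (T 0) * W ((l * k) • Z)) := by rw [hcan]; ring

end Pool.Agent.SZG.H82
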